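import Pool.Agent.Helper569.ReulTransfer

/-!
# Rendezvous value and maximal average distance of sets between a set and its chord hull
-/

set_option autoImplicit false

namespace Pool.Agent.Y688.RL

open Set Metric Pool.Agent.Helper569.Reul

section metric

variable {X : Type*} [PseudoMetricSpace X]

theorem rendezvous_nonneg (E : Set X) : 0 ≤ rendezvous E := by
  apply Real.sSup_nonneg
  rintro r ⟨n, x, hn, hx, ⟨y, hy, rfl⟩, -⟩
  positivity

/-- in a nonempty compact set every configuration has a point of average distance at most `a(F)`. -/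
theorem exists_le {F : Set X} (hF : IsCompact F) (hne : F.Nonempty) {ι : Type*} [Fintype ι]
    [Nonempty ι] (z : ι → X) (hz : ∀ i, z i ∈ F) :
    ∃ y ∈ F, ∑ i, dist (z i) y ≤ (Fintype.card ι : ℝ) * rendezvous F := by
  have hc : 1 ≤ Fintype.card ι := Fintype.card_pos
  have hc0 : (0 : ℝ) < Fintype.card ι := by exact_mod_cast hc
  let e := Fintype.equivFin ι
  obtain ⟨y, hy, hmin⟩ := hF.exists_isMinOn hne
    (f := fun y => (1 / (Fintype.card ι : ℝ)) * ∑ i : Fin (Fintype.card ι), dist (z (e.symm i)) y)
    (by fun_prop)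
  have h1 : (1 / (Fintype.card ι : ℝ)) * ∑ i : Fin (Fintype.card ι), dist (z (e.symm i)) y
      ≤ rendezvous F := by
    apply le_csSup (rendezvous_bdd hF.isBounded)
    refine ⟨Fintype.card ι, fun i => z (e.symm i), hc, fun i => hz _, ⟨y, hy, rfl⟩, ?_⟩
    rintro s ⟨w, hw, rfl⟩
    exact hmin hw
  refine ⟨y, hy, ?_⟩
  have h2 : ∑ i : Fin (Fintype.card ι), dist (z (e.symm i)) y = ∑ i, dist (z i) y :=
    Equiv.sum_comp e.symm (fun i => dist (z i) y)
  rw [h2] at h1
  have h3 := mul_le_mul_of_nonneg_left h1 hc0.le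
  have h4 : (Fintype.card ι : ℝ) * (1 / (Fintype.card ι : ℝ) * ∑ i, dist (z i) y)
      = ∑ i, dist (z i) y := by field_simp
  linarith

/-- a configuration all of whose average distances are at least `c` gives `c ≤ a(F)`, and there is
a point of `F` at average distance at most `a(F)`. -/
theorem le_rendezvous {F : Set X} (hF : IsCompact F) (hne : F.Nonempty) {ι : Type*} [Fintype ι]
    [Nonempty ι] (z : ι → X) (hz : ∀ i, z i ∈ F) {c : ℝ}
    (hc : ∀ y ∈ F, c ≤ ∑ i, dist (z i) y) : c ≤ (Fintype.card ι : ℝ) * rendezvous F := by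
  obtain ⟨y, hy, h⟩ := exists_le hF hne z hz
  exact (hc y hy).trans h

end metric

section normed

variable {X : Type*} [NormedAddCommGroup X] [NormedSpace ℝ X]

/-- every point of `E` lies on a segment with end points in `F`. -/
def Chord (F E : Set X) : Prop := ∀ x ∈ E, ∃ p ∈ F, ∃ q ∈ F, x ∈ segment ℝ p q

theorem energy_convex {n : ℕ} (x : Fin n → X) (a : Fin n) (p q : X) (α β : ℝ) (hα : 0 ≤ α)
    (hβ : 0 ≤ β) (hab : α + β = 1) (hx : α • p + β • q = x a) :
    ∑ i, ∑ j, dist (x i) (x j)
      ≤ α * ∑ i, ∑ j, dist (Function.update x a p i) (Function.update x a p j)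
        + β * ∑ i, ∑ j, dist (Function.update x a q i) (Function.update x a q j) := by
  have key : ∀ i, x i = α • Function.update x a p i + β • Function.update x a q i := by
    intro i
    by_cases h : i = a
    · subst h
      simp [hx]
    · rw [Function.update_of_ne h, Function.update_of_ne h, ← add_smul, hab, one_smul]
  rw [Finset.mul_sum, Finset.mul_sum, ← Finset.sum_add_distrib]
  apply Finset.sum_le_sum; intro i _
  rw [Finset.mul_sum, Finset.mul_sum, ← Finset.sum_add_distrib]
  apply Finset.sum_le_sum; intro j _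
  rw [key i, key j, dist_eq_norm, dist_eq_norm, dist_eq_norm]
  set u := Function.update x a p
  set w := Function.update x a q
  have e : α • u i + β • w i - (α • u j + β • w j) = α • (u i - u j) + β • (w i - w j) := by
    module
  rw [e]
  refine (norm_add_le _ _).trans ?_
  rw [norm_smul, norm_smul, Real.norm_of_nonneg hα, Real.norm_of_nonneg hβ]

theorem energy_le {F E : Set X} (hc : Chord F E) (hFE : F ⊆ E) {n : ℕ} (x : Fin n → X)
    (hx : ∀ i, x i ∈ E) (s : Finset (Fin n)) :
    ∃ x' : Fin n → X, (∀ i ∈ s, x' i ∈ F) ∧ (∀ i, x' i ∈ E) ∧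
      ∑ i, ∑ j, dist (x i) (x j) ≤ ∑ i, ∑ j, dist (x' i) (x' j) := by
  classical
  induction s using Finset.induction_on with
  | empty => exact ⟨x, by simp, hx, le_rfl⟩
  | insert a s ha ih =>
    obtain ⟨y, h1, h2, h3⟩ := ih
    obtain ⟨p, hp, q, hq, α, β, hα, hβ, hab, he⟩ := hc (y a) (h2 a)
    have h4 := energy_convex y a p q α β hα hβ hab he
    set A := ∑ i, ∑ j, dist (Function.update y a p i) (Function.update y a p j) with hA
    set B := ∑ i, ∑ j, dist (Function.update y a q i) (Function.update y a q j) with hB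
    have upd : ∀ z ∈ F, (∀ i ∈ insert a s, Function.update y a z i ∈ F) ∧
        (∀ i, Function.update y a z i ∈ E) := by
      intro z hz
      constructor
      · intro i hi
        by_cases h : i = a
        · subst h; simpa using hz
        · rw [Function.update_of_ne h]
          exact h1 i ((Finset.mem_insert.1 hi).resolve_left h)
      · intro i
        by_cases h : i = a
        · subst h; simpa using hFE hz
        · rw [Function.update_of_ne h]; exact h2 i
    rcases le_total A B with h | h
    · refine ⟨Function.update y a q, (upd q hq).1, (upd q hq).2, h3.trans (h4.trans ?_)⟩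
      have : α * A + β * B ≤ α * B + β * B := by
        have := mul_le_mul_of_nonneg_left h hα; linarith
      calc α * A + β * B ≤ α * B + β * B := this
        _ = B := by rw [← add_mul, hab, one_mul]
    · refine ⟨Function.update y a p, (upd p hp).1, (upd p hp).2, h3.trans (h4.trans ?_)⟩
      have : α * A + β * B ≤ α * A + β * A := by
        have := mul_le_mul_of_nonneg_left h hβ; linarith
      calc α * A + β * B ≤ α * A + β * A := this
        _ = A := by rw [← add_mul, hab, one_mul]

/-- the maximal average distance of `E` is that of `F`, if every point of `E` lies on a chord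
of `F`. -/
theorem maxAvg_eq {F E : Set X} (hE : Bornology.IsBounded E) (hc : Chord F E) (hFE : F ⊆ E) :
    maxAvg E = maxAvg F := by
  apply le_antisymm
  · apply Real.sSup_le _ (maxAvg_nonneg F)
    rintro r ⟨n, x, hn, hx, rfl⟩
    obtain ⟨x', h1, -, h3⟩ := energy_le hc hFE x hx Finset.univ
    haveI : Nonempty (Fin n) := ⟨⟨0, hn⟩⟩
    have h4 := sum_le_maxAvg (hE.subset hFE) x' (fun i => h1 i (Finset.mem_univ i))
    rw [Fintype.card_fin] at h4
    have hn0 : (0 : ℝ) < n := by exact_mod_cast hn
    rw [one_div, inv_mul_le_iff₀ (by positivity)]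
    linarith
  · apply Real.sSup_le _ (maxAvg_nonneg E)
    rintro r ⟨n, x, hn, hx, rfl⟩
    apply le_csSup (maxAvg_bdd hE)
    exact ⟨n, x, hn, fun i => hFE (hx i), rfl⟩

/-- the rendezvous value of `E` is at most that of `F`, if every point of `E` lies on a chord
of `F`. -/
theorem rendezvous_le {F E : Set X} (hF : IsCompact F) (hc : Chord F E) (hFE : F ⊆ E) :
    rendezvous E ≤ rendezvous F := by
  apply Real.sSup_le _ (rendezvous_nonneg F)
  rintro r ⟨n, x, hn, hx, hr⟩
  have hn0 : (0 : ℝ) < n := by exact_mod_cast hn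
  choose p hp q hq α β hα hβ hab he using fun i => hc (x i) (hx i)
  obtain ⟨D, hD⟩ := isBounded_iff.1 hF.isBounded
  have hD0 : 0 ≤ D := by
    have := hD (hp ⟨0, hn⟩) (hp ⟨0, hn⟩)
    rwa [dist_self] at this
  have hne : F.Nonempty := ⟨p ⟨0, hn⟩, hp _⟩
  have hN : ∀ N : ℕ, 1 ≤ N → r ≤ rendezvous F + D / N := by
    intro N hN
    have hN0 : (0 : ℝ) < N := by exact_mod_cast hN
    let k : Fin n → ℕ := fun i => ⌊(N : ℝ) * β i⌋₊
    have hb1 : ∀ i, β i ≤ 1 := fun i => by have := hab i; have := hα i; linarith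
    have hk : ∀ i, k i ≤ N := by
      intro i
      have h1 : (k i : ℝ) ≤ N * β i := Nat.floor_le (mul_nonneg hN0.le (hβ i))
      have h2 : (N : ℝ) * β i ≤ N := by nlinarith [hb1 i]
      exact_mod_cast h1.trans h2
    haveI : Nonempty (Σ i : Fin n, Fin (k i) ⊕ Fin (N - k i)) := by
      rcases Nat.eq_zero_or_pos (k ⟨0, hn⟩) with h | h
      · exact ⟨⟨⟨0, hn⟩, Sum.inr ⟨0, by rw [h]; omega⟩⟩⟩
      · exact ⟨⟨⟨0, hn⟩, Sum.inl ⟨0, h⟩⟩⟩
    obtain ⟨y, hy, hle⟩ := exists_le hF hne
      (fun t : (Σ i : Fin n, Fin (k i) ⊕ Fin (N - k i)) =>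
        Sum.elim (fun _ => q t.1) (fun _ => p t.1) t.2)
      (by
        rintro ⟨i, j | j⟩
        · exact hq i
        · exact hp i)
    have hcard : (Fintype.card (Σ i : Fin n, Fin (k i) ⊕ Fin (N - k i)) : ℝ) = n * N := by
      rw [Fintype.card_sigma]
      simp only [Fintype.card_sum, Fintype.card_fin]
      have : ∀ i : Fin n, k i + (N - k i) = N := fun i => by have := hk i; omega
      simp only [this, Finset.sum_const, Finset.card_univ, Fintype.card_fin, smul_eq_mul]
      push_cast
      ring
    rw [hcard, Fintype.sum_sigma] at hle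
    simp only [Fintype.sum_sum_type, Sum.elim_inl, Sum.elim_inr, Finset.sum_const,
      Finset.card_univ, Fintype.card_fin, nsmul_eq_mul] at hle
    have hterm : ∀ i, (N : ℝ) * dist (x i) y
        ≤ ((k i : ℝ) * dist (q i) y + ((N - k i : ℕ) : ℝ) * dist (p i) y) + D := by
      intro i
      have h1 : dist (x i) y ≤ α i * dist (p i) y + β i * dist (q i) y := by
        have e : x i - y = α i • (p i - y) + β i • (q i - y) := by
          have h5 : α i • (p i - y) + β i • (q i - y)
              = (α i • p i + β i • q i) - (α i + β i) • y := by module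
          rw [h5, he i, hab i, one_smul]
        rw [dist_eq_norm, dist_eq_norm, dist_eq_norm, e]
        refine (norm_add_le _ _).trans ?_
        rw [norm_smul, norm_smul, Real.norm_of_nonneg (hα i), Real.norm_of_nonneg (hβ i)]
      rw [Nat.cast_sub (hk i)]
      have h2 : (k i : ℝ) ≤ N * β i := Nat.floor_le (mul_nonneg hN0.le (hβ i))
      have h3 : (N : ℝ) * β i < k i + 1 := Nat.lt_floor_add_one _
      have h4 : dist (q i) y - dist (p i) y ≤ D := by
        have := dist_triangle (q i) (p i) y
        have := hD (hq i) (hp i)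
        linarith
      have h6 : α i = 1 - β i := by have := hab i; linarith
      rw [h6] at h1
      have h7 := mul_le_mul_of_nonneg_left h1 hN0.le
      have h8 : (N * β i - k i) * (dist (q i) y - dist (p i) y) ≤ D := by
        rcases le_total (dist (q i) y - dist (p i) y) 0 with h9 | h9
        · have : (N * β i - k i) * (dist (q i) y - dist (p i) y) ≤ 0 :=
            mul_nonpos_of_nonneg_of_nonpos (by linarith) h9
          linarith
        · have : (N * β i - k i) * (dist (q i) y - dist (p i) y)
              ≤ 1 * (dist (q i) y - dist (p i) y) :=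
            mul_le_mul_of_nonneg_right (by linarith) h9
          linarith
      nlinarith
    have hsum : (N : ℝ) * ∑ i, dist (x i) y
        ≤ n * N * rendezvous F + n * D := by
      rw [Finset.mul_sum]
      refine (Finset.sum_le_sum fun i _ => hterm i).trans ?_
      rw [Finset.sum_add_distrib]
      simp only [Finset.sum_const, Finset.card_univ, Fintype.card_fin, nsmul_eq_mul]
      linarith
    have hry : r ≤ (1 / (n : ℝ)) * ∑ i, dist (x i) y := hr.2 ⟨y, hFE hy, rfl⟩
    have h9 : (1 / (n : ℝ)) * ∑ i, dist (x i) y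
        = ((N : ℝ) * ∑ i, dist (x i) y) / (n * N) := by
      field_simp
    have h10 : (n * N * rendezvous F + n * D) / (n * N) = rendezvous F + D / N := by
      field_simp
    rw [h9] at hry
    refine hry.trans ?_
    rw [← h10]
    gcongr
  apply le_of_forall_pos_le_add
  intro ε hε
  obtain ⟨N, hN2⟩ := exists_nat_gt (D / ε)
  have hN0 : (0 : ℝ) < (N + 1 : ℕ) := by positivity
  refine (hN (N + 1) (by omega)).trans ?_
  have : D / ((N + 1 : ℕ) : ℝ) ≤ ε := by
    rw [div_le_iff₀ hN0]
    rw [div_lt_iff₀ hε] at hN2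
    push_cast
    nlinarith
  linarith

theorem exists_ray [Nontrivial X] {K : Set X} (hK : IsCompact K) {x : X} (hx : x ∈ K) {u : X}
    (hu : u ≠ 0) : ∃ t : ℝ, 0 ≤ t ∧ x + t • u ∈ frontier K := by
  have hu0 : 0 < ‖u‖ := norm_pos_iff.2 hu
  set S : Set ℝ := {t | 0 ≤ t ∧ x + t • u ∈ K} with hS
  have hcl : IsClosed S := by
    have h1 : IsClosed {t : ℝ | 0 ≤ t} := isClosed_Ici
    have h2 : IsClosed ((fun t : ℝ => x + t • u) ⁻¹' K) :=
      hK.isClosed.preimage (by fun_prop)
    exact h1.inter h2
  obtain ⟨D, hD⟩ := isBounded_iff.1 hK.isBounded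
  have hbd : Bornology.IsBounded S := by
    rw [isBounded_iff_subset_closedBall 0]
    refine ⟨D / ‖u‖, ?_⟩
    rintro t ⟨ht, hk⟩
    have h1 := hD hk hx
    rw [dist_eq_norm, add_sub_cancel_left, norm_smul] at h1
    rw [mem_closedBall, dist_zero_right, le_div_iff₀ hu0]
    exact h1
  have hSc : IsCompact S := isCompact_of_isClosed_isBounded hcl hbd
  have hSn : S.Nonempty := ⟨0, le_rfl, by simpa using hx⟩
  obtain ⟨t, ht, hmax⟩ := hSc.exists_isMaxOn hSn (f := fun t => t) continuousOn_id
  refine ⟨t, ht.1, subset_closure ht.2, ?_⟩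
  intro hint
  obtain ⟨ε, hε, hball⟩ := Metric.isOpen_iff.1 isOpen_interior _ hint
  have h2 : x + (t + ε / (2 * ‖u‖)) • u ∈ ball (x + t • u) ε := by
    rw [mem_ball, dist_eq_norm, add_smul, ← add_assoc, add_sub_cancel_left, norm_smul,
      Real.norm_of_nonneg (by positivity)]
    have : ε / (2 * ‖u‖) * ‖u‖ = ε / 2 := by field_simp
    rw [this]; linarith
  have h3 : t + ε / (2 * ‖u‖) ∈ S := ⟨by have := ht.1; positivity, interior_subset (hball h2)⟩
  have h4 : t + ε / (2 * ‖u‖) ≤ t := hmax h3
  have : 0 < ε / (2 * ‖u‖) := by positivity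
  linarith

theorem chord_frontier [Nontrivial X] {K : Set X} (hK : IsCompact K) : Chord (frontier K) K := by
  intro x hx
  obtain ⟨u, hu⟩ := exists_ne (0 : X)
  obtain ⟨t, ht, h1⟩ := exists_ray hK hx hu
  obtain ⟨s, hs, h2⟩ := exists_ray hK hx (neg_ne_zero.2 hu)
  refine ⟨_, h1, _, h2, ?_⟩
  rcases eq_or_lt_of_le (add_nonneg ht hs) with h | h
  · have ht0 : t = 0 := by linarith
    have hs0 : s = 0 := by linarith
    subst ht0 hs0
    simp
  · refine ⟨s / (t + s), t / (t + s), by positivity, by positivity, ?_, ?_⟩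
    · field_simp; ring
    · have e : (s / (t + s)) • (x + t • u) + (t / (t + s)) • (x + s • -u)
          = (s / (t + s) + t / (t + s)) • x + (s / (t + s) * t - t / (t + s) * s) • u := by
        module
      rw [e]
      have e1 : s / (t + s) + t / (t + s) = 1 := by field_simp; ring
      have e2 : s / (t + s) * t - t / (t + s) * s = 0 := by ring
      rw [e1, e2, one_smul, zero_smul, add_zero]

theorem Chord.mono {F F' E E' : Set X} (h : Chord F E) (hF : F ⊆ F') (hE : E' ⊆ E) :
    Chord F' E' := by
  intro x hx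
  obtain ⟨p, hp, q, hq, h1⟩ := h x (hE hx)
  exact ⟨p, hF hp, q, hF hq, h1⟩

end normed

end Pool.Agent.Y688.RL
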