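import Pool.Agent.Y688.RL.Tri

/-!
# The Reuleaux triangle: compact sets between the boundary and the solid
-/

set_option autoImplicit false

namespace Pool.Agent.Y688.RL

open Set Metric Pool.Agent.Helper569.Reul

variable {v : Fin 3 → EuclideanSpace ℝ (Fin 2)}

theorem iso_ctr (f : ℂ ≃ᵢ EuclideanSpace ℝ (Fin 2)) (h0 : f 0 = v 0) (h1 : f 1 = v 1)
    (h2 : f ζ = v 2) : f ((1 + ζ) / 3) = ctr v := by
  set g := f.toRealAffineIsometryEquiv with hg
  have hgf : ∀ z, f z = g.linearIsometryEquiv z + v 0 := by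
    intro z
    have h := g.map_vadd 0 z
    rw [vadd_eq_add, add_zero, vadd_eq_add] at h
    have e1 : g z = f z := rfl
    have e2 : g 0 = f 0 := rfl
    rw [e1, e2, h0] at h
    exact h
  have e : ((1 + ζ) / 3 : ℂ) = (1 / 3 : ℝ) • (1 + ζ) := by
    rw [Complex.real_smul]; push_cast; ring
  rw [hgf, e, map_smul, map_add, ctr, ← h1, ← h2, hgf 1, hgf ζ]
  module

theorem ctr_mem (hv : ∀ i j, i ≠ j → dist (v i) (v j) = 1) : ctr v ∈ reuleaux v := by
  obtain ⟨f, h0, h1, h2⟩ := exists_iso v hv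
  rw [reuleaux_eq v f h0 h1 h2, ← iso_ctr f h0 h1 h2]
  exact ⟨_, center_mem, rfl⟩

theorem dist_ctr (hv : ∀ i j, i ≠ j → dist (v i) (v j) = 1) {z : EuclideanSpace ℝ (Fin 2)}
    (hz : z ∈ reuleaux v) : dist z (ctr v) ≤ 1 / √3 := by
  obtain ⟨f, h0, h1, h2⟩ := exists_iso v hv
  rw [reuleaux_eq v f h0 h1 h2] at hz
  obtain ⟨w, hw, rfl⟩ := hz
  rw [← iso_ctr f h0 h1 h2, f.dist_eq]
  exact solid_center hw

theorem compact_reuleaux (v : Fin 3 → EuclideanSpace ℝ (Fin 2)) : IsCompact (reuleaux v) := by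
  apply isCompact_of_isClosed_isBounded
  · exact isClosed_iInter fun i => isClosed_closedBall
  · exact isBounded_closedBall.subset (iInter_subset _ (0 : Fin 3))

theorem frontier_sub (v : Fin 3 → EuclideanSpace ℝ (Fin 2)) :
    frontier (reuleaux v) ⊆ reuleaux v :=
  (compact_reuleaux v).isClosed.frontier_subset

theorem compact_frontier (v : Fin 3 → EuclideanSpace ℝ (Fin 2)) :
    IsCompact (frontier (reuleaux v)) :=
  (compact_reuleaux v).of_isClosed_subset isClosed_frontier (frontier_sub v)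

theorem vertex_mem (hv : ∀ i j, i ≠ j → dist (v i) (v j) = 1) (j : Fin 3) :
    v j ∈ frontier (reuleaux v) := by
  constructor
  · apply subset_closure
    rw [reuleaux, mem_iInter]
    intro i
    rw [mem_closedBall]
    by_cases h : j = i
    · rw [h, dist_self]; norm_num
    · exact (hv j i h).le
  · intro hint
    obtain ⟨k, hk'⟩ := exists_ne j
    have hk : j ≠ k := hk'.symm
    have h1 : v j ∈ interior (closedBall (v k) 1) :=
      interior_mono (iInter_subset _ k) hint
    rw [interior_closedBall _ one_ne_zero, mem_ball, hv j k hk] at h1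
    exact lt_irrefl _ h1

theorem frontier_far {y : EuclideanSpace ℝ (Fin 2)} (hy : y ∈ frontier (reuleaux v)) :
    ∃ i, 1 ≤ dist (v i) y := by
  by_contra h
  push Not at h
  apply hy.2
  have hopen : IsOpen (⋂ i, ball (v i) 1) := isOpen_iInter_of_finite fun i => isOpen_ball
  have hsub : (⋂ i, ball (v i) 1) ⊆ reuleaux v :=
    iInter_mono fun i => ball_subset_closedBall
  apply interior_maximal hsub hopen
  rw [mem_iInter]
  intro i
  rw [mem_ball, dist_comm]
  exact h i

theorem frontier_sum (hv : ∀ i j, i ≠ j → dist (v i) (v j) = 1) {y : EuclideanSpace ℝ (Fin 2)}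
    (hy : y ∈ frontier (reuleaux v)) : 2 ≤ ∑ i, dist (v i) y := by
  obtain ⟨i, hi⟩ := frontier_far hy
  rw [Fin.sum_univ_three]
  have t01 : 1 ≤ dist (v 0) y + dist (v 1) y := by
    rw [← hv 0 1 (by decide), dist_comm (v 1) y]; exact dist_triangle _ _ _
  have t02 : 1 ≤ dist (v 0) y + dist (v 2) y := by
    rw [← hv 0 2 (by decide), dist_comm (v 2) y]; exact dist_triangle _ _ _
  have t12 : 1 ≤ dist (v 1) y + dist (v 2) y := by
    rw [← hv 1 2 (by decide), dist_comm (v 2) y]; exact dist_triangle _ _ _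
  fin_cases i
  · change 1 ≤ dist (v 0) y at hi; linarith
  · change 1 ≤ dist (v 1) y at hi; linarith
  · change 1 ≤ dist (v 2) y at hi; linarith

/-- the boundary has rendezvous value at least `2/3`. -/
theorem frontier_ge (hv : ∀ i j, i ≠ j → dist (v i) (v j) = 1) :
    2 / 3 ≤ rendezvous (frontier (reuleaux v)) := by
  have h := le_rendezvous (compact_frontier v) ⟨_, vertex_mem hv 0⟩ v (vertex_mem hv)
    (fun y hy => frontier_sum hv hy)
  rw [Fintype.card_fin] at h
  push_cast at h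
  linarith

theorem ge_any (hv : ∀ i j, i ≠ j → dist (v i) (v j) = 1) {E : Set (EuclideanSpace ℝ (Fin 2))}
    (hE : IsCompact E) (h1 : frontier (reuleaux v) ⊆ E) : 1 / √3 ≤ rendezvous E := by
  have h := le_rendezvous hE ⟨_, h1 (vertex_mem hv 0)⟩ v (fun i => h1 (vertex_mem hv i))
    (fun y _ => fermat hv y)
  rw [Fintype.card_fin] at h
  push_cast at h
  have hr : √3 * √3 = 3 := Real.mul_self_sqrt (by norm_num)
  have hr0 : 0 < √3 := by positivity
  rw [div_le_iff₀ hr0]
  nlinarith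

theorem eq_iff (hv : ∀ i j, i ≠ j → dist (v i) (v j) = 1) {E : Set (EuclideanSpace ℝ (Fin 2))}
    (hE : IsCompact E) (h1 : frontier (reuleaux v) ⊆ E) (h2 : E ⊆ reuleaux v) :
    rendezvous E = 1 / √3 ↔ ctr v ∈ E := by
  constructor
  · intro h
    obtain ⟨y, hy, hle⟩ := exists_le hE ⟨_, h1 (vertex_mem hv 0)⟩ v
      (fun i => h1 (vertex_mem hv i))
    rw [Fintype.card_fin, h] at hle
    push_cast at hle
    have hr : √3 * √3 = 3 := Real.mul_self_sqrt (by norm_num)
    have hr0 : 0 < √3 := by positivity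
    have h3 : (3 : ℝ) * (1 / √3) = √3 := by
      field_simp; linarith
    rw [h3] at hle
    rw [← fermat_eq hv hle]
    exact hy
  · intro h
    apply le_antisymm _ (ge_any hv hE h1)
    exact rendezvous_le_of_center h (by positivity) (fun z hz => dist_ctr hv (h2 hz))

/-! ### Intermediate values -/

theorem near {X : Type*} [PseudoMetricSpace X] {G E : Set X} (hE : IsCompact E)
    (hGE : G ⊆ E) {δ : ℝ} (hδ : 0 ≤ δ) (h : ∀ y ∈ E, ∃ w ∈ G, dist y w ≤ δ) :
    rendezvous G ≤ rendezvous E + δ := by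
  apply Real.sSup_le _ (add_nonneg (rendezvous_nonneg E) hδ)
  rintro r ⟨n, x, hn, hx, hr⟩
  have hn0 : (0 : ℝ) < n := by exact_mod_cast hn
  have hne : Nonempty (Fin n) := ⟨⟨0, hn⟩⟩
  obtain ⟨y, hy, hle⟩ := exists_le hE ⟨_, hGE (hx ⟨0, hn⟩)⟩ x (fun i => hGE (hx i))
  rw [Fintype.card_fin] at hle
  obtain ⟨w, hw, hyw⟩ := h y hy
  have h1 : r ≤ (1 / (n : ℝ)) * ∑ i, dist (x i) w := hr.2 ⟨w, hw, rfl⟩
  have h2 : ∑ i, dist (x i) w ≤ ∑ i, (dist (x i) y + δ) := by
    apply Finset.sum_le_sum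
    intro i _
    have := dist_triangle (x i) y w
    linarith
  rw [Finset.sum_add_distrib] at h2
  simp only [Finset.sum_const, Finset.card_univ, Fintype.card_fin, nsmul_eq_mul] at h2
  rw [one_div, le_inv_mul_iff₀ hn0] at h1
  have h3 : (n : ℝ) * r ≤ n * (rendezvous E + δ) := by linarith
  exact le_of_mul_le_mul_left h3 hn0

theorem crossing {X : Type*} [TopologicalSpace X] {S K : Set X} (hS : IsPreconnected S)
    (hK : IsClosed K) {x x' : X} (h1 : x ∈ S) (h2 : x ∈ K) (h3 : x' ∈ S) (h4 : x' ∉ K) :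
    ∃ y ∈ S, y ∈ frontier K := by
  by_contra hcon
  push Not at hcon
  have key : ∀ y ∈ S, y ∈ K → y ∈ interior K := by
    intro y hy hyK
    by_contra h
    exact hcon y hy ⟨subset_closure hyK, h⟩
  obtain ⟨y, hy, hy1, hy2⟩ := hS (interior K) Kᶜ isOpen_interior hK.isOpen_compl
    (fun y hy => by
      by_cases h : y ∈ K
      · exact Or.inl (key y hy h)
      · exact Or.inr h) ⟨x, h1, key x h1 h2⟩ ⟨x', h3, h4⟩
  exact hy2 (interior_subset hy1)

/-- the boundary together with the points of the solid at distance at least `r` from the centre. -/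
def Er (v : Fin 3 → EuclideanSpace ℝ (Fin 2)) (r : ℝ) : Set (EuclideanSpace ℝ (Fin 2)) :=
  frontier (reuleaux v) ∪ (reuleaux v \ ball (ctr v) r)

theorem compact_Er (v : Fin 3 → EuclideanSpace ℝ (Fin 2)) (r : ℝ) : IsCompact (Er v r) :=
  (compact_frontier v).union ((compact_reuleaux v).diff isOpen_ball)

theorem Er_sub (v : Fin 3 → EuclideanSpace ℝ (Fin 2)) (r : ℝ) : Er v r ⊆ reuleaux v :=
  union_subset (frontier_sub v) sdiff_subset

theorem Er_anti (v : Fin 3 → EuclideanSpace ℝ (Fin 2)) {r s : ℝ} (h : r ≤ s) :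
    Er v s ⊆ Er v r :=
  union_subset_union_right _ (sdiff_subset_sdiff_right (ball_subset_ball h))

theorem Er_near (v : Fin 3 → EuclideanSpace ℝ (Fin 2)) {r s : ℝ} (h : r ≤ s) :
    ∀ x ∈ Er v r, ∃ y ∈ Er v s, dist x y ≤ s - r := by
  rintro x (hx | ⟨hx, hxb⟩)
  · exact ⟨x, Or.inl hx, by rw [dist_self]; linarith⟩
  · rw [mem_ball, not_lt] at hxb
    obtain ⟨u, hu, hxu⟩ : ∃ u : EuclideanSpace ℝ (Fin 2), ‖u‖ = 1 ∧
        x - ctr v = ‖x - ctr v‖ • u := by
      by_cases h0 : x - ctr v = 0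
      · obtain ⟨u, hu⟩ := exists_norm_eq (EuclideanSpace ℝ (Fin 2)) (zero_le_one (α := ℝ))
        exact ⟨u, hu, by rw [h0, norm_zero, zero_smul]⟩
      · have h1 : ‖x - ctr v‖ ≠ 0 := norm_ne_zero_iff.2 h0
        refine ⟨‖x - ctr v‖⁻¹ • (x - ctr v), ?_, ?_⟩
        · rw [norm_smul, norm_inv, norm_norm, inv_mul_cancel₀ h1]
        · rw [smul_smul, mul_inv_cancel₀ h1, one_smul]
    set x' := x + (s - r) • u with hx'
    have hd : dist x x' = s - r := by
      rw [dist_comm, dist_eq_norm, hx', add_sub_cancel_left, norm_smul, hu, mul_one,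
        Real.norm_of_nonneg (by linarith)]
    by_cases hmem : x' ∈ reuleaux v
    · refine ⟨x', Or.inr ⟨hmem, ?_⟩, hd.le⟩
      rw [mem_ball, not_lt]
      have e : x' - ctr v = (‖x - ctr v‖ + (s - r)) • u := by
        rw [add_smul, ← hxu, hx']; abel
      rw [dist_eq_norm, e, norm_smul, hu, mul_one, Real.norm_of_nonneg (by
        have := norm_nonneg (x - ctr v); linarith)]
      rw [dist_eq_norm] at hxb
      linarith
    · obtain ⟨y, hy1, hy2⟩ := crossing (convex_segment (𝕜 := ℝ) x x').isPreconnected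
        (compact_reuleaux v).isClosed (left_mem_segment ℝ x x') hx
        (right_mem_segment ℝ x x') hmem
      refine ⟨y, Or.inl hy2, ?_⟩
      rw [← hd]
      obtain ⟨α, β, hα, hβ, hab, rfl⟩ := hy1
      have e : x - (α • x + β • x') = β • (x - x') := by
        have : α = 1 - β := by linarith
        rw [this]; module
      rw [dist_eq_norm, dist_eq_norm, e, norm_smul, Real.norm_of_nonneg hβ]
      have := norm_nonneg (x - x')
      have : β ≤ 1 := by linarith
      nlinarith

theorem anti (v : Fin 3 → EuclideanSpace ℝ (Fin 2)) {E E' : Set (EuclideanSpace ℝ (Fin 2))}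
    (hE : IsCompact E) (h1 : frontier (reuleaux v) ⊆ E) (h2 : E ⊆ E') (h3 : E' ⊆ reuleaux v) :
    rendezvous E' ≤ rendezvous E :=
  rendezvous_le hE ((chord_frontier (compact_reuleaux v)).mono h1 h3) h2

theorem Er_lipschitz (v : Fin 3 → EuclideanSpace ℝ (Fin 2)) :
    LipschitzWith 1 (fun r : ℝ => rendezvous (Er v r)) := by
  apply LipschitzWith.of_le_add
  intro r s
  rcases le_total r s with h | h
  · have := anti v (compact_Er v s) subset_union_left (Er_anti v h) (Er_sub v r)
    have := dist_nonneg (x := r) (y := s)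
    linarith
  · have h1 := near (compact_Er v s) (Er_anti v h) (by linarith) (Er_near v h)
    rw [Real.dist_eq, abs_of_nonneg (by linarith)]
    exact h1

theorem Er_zero (v : Fin 3 → EuclideanSpace ℝ (Fin 2)) : Er v 0 = reuleaux v := by
  rw [Er, ball_zero, sdiff_empty]
  exact union_eq_self_of_subset_left (frontier_sub v)

theorem Er_one (hv : ∀ i j, i ≠ j → dist (v i) (v j) = 1) :
    Er v 1 = frontier (reuleaux v) := by
  have h : reuleaux v \ ball (ctr v) 1 = ∅ := by
    rw [sdiff_eq_empty]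
    intro z hz
    have h1 := dist_ctr hv hz
    rw [mem_ball]
    have h3 : 1 < √3 := by
      rw [Real.lt_sqrt (by norm_num)]; norm_num
    have h2 : 1 / √3 < 1 := by rw [div_lt_one (by positivity)]; exact h3
    linarith
  rw [Er, h, union_empty]

theorem values (hv : ∀ i j, i ≠ j → dist (v i) (v j) = 1) {t : ℝ} (h1 : 1 / √3 ≤ t)
    (h2 : t ≤ rendezvous (frontier (reuleaux v))) :
    ∃ E : Set (EuclideanSpace ℝ (Fin 2)), IsCompact E ∧ frontier (reuleaux v) ⊆ E ∧
      E ⊆ reuleaux v ∧ rendezvous E = t := by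
  have h := intermediate_value_Icc (zero_le_one (α := ℝ)) (Er_lipschitz v).continuous.continuousOn
  have e0 : rendezvous (Er v 0) = 1 / √3 := by
    rw [Er_zero]
    exact (eq_iff hv (compact_reuleaux v) (frontier_sub v) subset_rfl).2 (ctr_mem hv)
  have e1 : rendezvous (Er v 1) = rendezvous (frontier (reuleaux v)) := by rw [Er_one hv]
  rw [e0, e1] at h
  obtain ⟨r, -, hr⟩ := h ⟨h1, h2⟩
  exact ⟨Er v r, compact_Er v r, subset_union_left, Er_sub v r, hr⟩

end Pool.Agent.Y688.RL
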