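import Pool.Agent.Y688.RL.Gen

/-!
# Equilateral triangles: the sum of the distances to the vertices
-/

set_option autoImplicit false

namespace Pool.Agent.Y688.RL

open Set Metric Pool.Agent.Helper569.Reul

section inner

variable {V : Type*} [NormedAddCommGroup V] [InnerProductSpace ℝ V]

/-- the centre of the triangle. -/
noncomputable def ctr (v : Fin 3 → V) : V := (1 / 3 : ℝ) • (v 0 + v 1 + v 2)

theorem tri {v : Fin 3 → V} (hv : ∀ i j, i ≠ j → dist (v i) (v j) = 1) :
    (∀ i, inner ℝ (v i - ctr v) (v i - ctr v) = 1 / 3) ∧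
      inner ℝ (v 0 - ctr v) (v 1 - ctr v) = -1 / 6 := by
  set p := v 0 - v 2 with hp
  set q := v 1 - v 2 with hq
  have p1 : inner ℝ p p = 1 := by
    rw [real_inner_self_eq_norm_sq, hp, ← dist_eq_norm, hv 0 2 (by decide)]; norm_num
  have q1 : inner ℝ q q = 1 := by
    rw [real_inner_self_eq_norm_sq, hq, ← dist_eq_norm, hv 1 2 (by decide)]; norm_num
  have r1 : inner ℝ (p - q) (p - q) = 1 := by
    have e : p - q = v 0 - v 1 := by rw [hp, hq]; abel
    rw [real_inner_self_eq_norm_sq, e, ← dist_eq_norm, hv 0 1 (by decide)]; norm_num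
  have pq : inner ℝ p q = 1 / 2 := by
    rw [inner_sub_left p q (p - q), inner_sub_right p p q, inner_sub_right q p q, p1, q1,
      real_inner_comm p q] at r1
    linarith
  have qp : inner ℝ q p = 1 / 2 := by rw [real_inner_comm]; exact pq
  have e0 : v 0 - ctr v = (2 / 3 : ℝ) • p - (1 / 3 : ℝ) • q := by
    rw [hp, hq, ctr]; module
  have e1 : v 1 - ctr v = (2 / 3 : ℝ) • q - (1 / 3 : ℝ) • p := by
    rw [hp, hq, ctr]; module
  have e2 : v 2 - ctr v = (-1 / 3 : ℝ) • p - (1 / 3 : ℝ) • q := by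
    rw [hp, hq, ctr]; module
  constructor
  · intro i
    fin_cases i
    · change inner ℝ (v 0 - ctr v) (v 0 - ctr v) = 1 / 3
      rw [e0]
      simp only [inner_sub_left, inner_sub_right, real_inner_smul_left, real_inner_smul_right,
        p1, q1, pq, qp]
      norm_num
    · change inner ℝ (v 1 - ctr v) (v 1 - ctr v) = 1 / 3
      rw [e1]
      simp only [inner_sub_left, inner_sub_right, real_inner_smul_left, real_inner_smul_right,
        p1, q1, pq, qp]
      norm_num
    · change inner ℝ (v 2 - ctr v) (v 2 - ctr v) = 1 / 3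
      rw [e2]
      simp only [inner_sub_left, inner_sub_right, real_inner_smul_left, real_inner_smul_right,
        p1, q1, pq, qp]
      norm_num
  · rw [e0, e1]
    simp only [inner_sub_left, inner_sub_right, real_inner_smul_left, real_inner_smul_right,
      p1, q1, pq, qp]
    norm_num

theorem norm_ctr {v : Fin 3 → V} (hv : ∀ i j, i ≠ j → dist (v i) (v j) = 1) (i : Fin 3) :
    ‖v i - ctr v‖ * √3 = 1 := by
  have h := (tri hv).1 i
  rw [real_inner_self_eq_norm_sq] at h
  have h2 : (‖v i - ctr v‖ * √3) ^ 2 = 1 := by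
    rw [mul_pow, h, Real.sq_sqrt (by norm_num)]; norm_num
  exact (pow_eq_one_iff_of_nonneg (by positivity) two_ne_zero).1 h2

theorem inner_le {v : Fin 3 → V} (hv : ∀ i j, i ≠ j → dist (v i) (v j) = 1) (y : V) (i : Fin 3) :
    1 / 3 + inner ℝ (ctr v - y) (v i - ctr v) ≤ dist (v i) y * ‖v i - ctr v‖ := by
  have h := real_inner_le_norm (v i - y) (v i - ctr v)
  have e : v i - y = (v i - ctr v) + (ctr v - y) := by abel
  rw [← dist_eq_norm] at h
  rw [e, inner_add_left, (tri hv).1 i] at h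
  exact h

theorem sum_zero (v : Fin 3 → V) : (v 0 - ctr v) + (v 1 - ctr v) + (v 2 - ctr v) = 0 := by
  rw [ctr]; module

theorem fermat {v : Fin 3 → V} (hv : ∀ i j, i ≠ j → dist (v i) (v j) = 1) (y : V) :
    √3 ≤ ∑ i, dist (v i) y := by
  rw [Fin.sum_univ_three]
  have h0 := inner_le hv y 0
  have h1 := inner_le hv y 1
  have h2 := inner_le hv y 2
  have hs : inner ℝ (ctr v - y) (v 0 - ctr v) + inner ℝ (ctr v - y) (v 1 - ctr v)
      + inner ℝ (ctr v - y) (v 2 - ctr v) = 0 := by
    rw [← inner_add_right, ← inner_add_right, sum_zero, inner_zero_right]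
  have n0 := norm_ctr hv 0
  have n1 := norm_ctr hv 1
  have n2 := norm_ctr hv 2
  have hr : (√3) ^ 2 = 3 := Real.sq_sqrt (by norm_num)
  have hr0 : 0 < √3 := by positivity
  have m0 : ‖v 0 - ctr v‖ = 1 / √3 := by field_simp; linarith
  have m1 : ‖v 1 - ctr v‖ = 1 / √3 := by field_simp; linarith
  have m2 : ‖v 2 - ctr v‖ = 1 / √3 := by field_simp; linarith
  rw [m0] at h0
  rw [m1] at h1
  rw [m2] at h2
  have h3 : 1 ≤ (dist (v 0) y + dist (v 1) y + dist (v 2) y) * (1 / √3) := by linarith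
  have h4 : (dist (v 0) y + dist (v 1) y + dist (v 2) y) * (1 / √3)
      = (dist (v 0) y + dist (v 1) y + dist (v 2) y) / √3 := by ring
  rw [h4, le_div_iff₀ hr0, one_mul] at h3
  exact h3

theorem fermat_eq {v : Fin 3 → V} (hv : ∀ i j, i ≠ j → dist (v i) (v j) = 1) {y : V}
    (hy : ∑ i, dist (v i) y ≤ √3) : y = ctr v := by
  rw [Fin.sum_univ_three] at hy
  have h0 := inner_le hv y 0
  have h1 := inner_le hv y 1
  have h2 := inner_le hv y 2
  have hs : inner ℝ (ctr v - y) (v 0 - ctr v) + inner ℝ (ctr v - y) (v 1 - ctr v)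
      + inner ℝ (ctr v - y) (v 2 - ctr v) = 0 := by
    rw [← inner_add_right, ← inner_add_right, sum_zero, inner_zero_right]
  have n0 := norm_ctr hv 0
  have n1 := norm_ctr hv 1
  have n2 := norm_ctr hv 2
  have hr : (√3) ^ 2 = 3 := Real.sq_sqrt (by norm_num)
  have hr0 : 0 < √3 := by positivity
  have m0 : ‖v 0 - ctr v‖ = 1 / √3 := by field_simp; linarith
  have m1 : ‖v 1 - ctr v‖ = 1 / √3 := by field_simp; linarith
  have m2 : ‖v 2 - ctr v‖ = 1 / √3 := by field_simp; linarith
  rw [m0] at h0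
  rw [m1] at h1
  rw [m2] at h2
  have h3 : (dist (v 0) y + dist (v 1) y + dist (v 2) y) * (1 / √3) ≤ 1 := by
    have h4 : (dist (v 0) y + dist (v 1) y + dist (v 2) y) * (1 / √3)
      = (dist (v 0) y + dist (v 1) y + dist (v 2) y) / √3 := by ring
    rw [h4, div_le_one hr0]; exact hy
  have g0 : 1 / 3 + inner ℝ (ctr v - y) (v 0 - ctr v) = dist (v 0) y * (1 / √3) := by linarith
  have g1 : 1 / 3 + inner ℝ (ctr v - y) (v 1 - ctr v) = dist (v 1) y * (1 / √3) := by linarith
  have key : ∀ i, 1 / 3 + inner ℝ (ctr v - y) (v i - ctr v) = dist (v i) y * (1 / √3) →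
      ‖v i - ctr v‖ = 1 / √3 →
      (1 / √3) • (ctr v - y) = (dist (v i) y - 1 / √3) • (v i - ctr v) := by
    intro i g m
    have e : v i - y = (v i - ctr v) + (ctr v - y) := by abel
    have h5 : inner ℝ (v i - y) (v i - ctr v) = ‖v i - y‖ * ‖v i - ctr v‖ := by
      rw [← dist_eq_norm, m, ← g, e, inner_add_left, (tri hv).1 i]
    have h6 := inner_eq_norm_mul_iff_real.1 h5
    rw [m, ← dist_eq_norm] at h6
    rw [e] at h6
    have h7 : (1 / √3) • (ctr v - y)
        = (1 / √3) • ((v i - ctr v) + (ctr v - y)) - (1 / √3) • (v i - ctr v) := by module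
    rw [h7, h6]; module
  have k0 := key 0 g0 m0
  have k1 := key 1 g1 m1
  have ab := (tri hv).2
  have ba : inner ℝ (v 1 - ctr v) (v 0 - ctr v) = -1 / 6 := by rw [real_inner_comm]; exact ab
  have aa := (tri hv).1 0
  have bb := (tri hv).1 1
  rw [k0] at k1
  have i0 := congrArg (fun w => inner ℝ w (v 0 - ctr v)) k1
  have i1 := congrArg (fun w => inner ℝ w (v 1 - ctr v)) k1
  simp only [real_inner_smul_left, aa, ba, ab, bb] at i0 i1
  have s0 : dist (v 0) y - 1 / √3 = 0 := by linarith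
  rw [s0, zero_smul] at k0
  have h8 : ctr v - y = 0 := by
    rcases smul_eq_zero.1 k0 with h | h
    · exact absurd h (by positivity)
    · exact h
  exact (sub_eq_zero.1 h8).symm

end inner

end Pool.Agent.Y688.RL
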